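import Mathlib
import Pool.Agent.MVD.StmtsLoc

set_option autoImplicit false

/-! Row XVB of the squad MVD: `VX` for blocks. -/

namespace Pool.Agent.MVD.H95

open Pool.Agent.Helper14_MV Pool.Agent.Helper2_MV

theorem bw_nil (B : ℕ → List ℕ) : Bw [] B = [] := rfl

theorem bw_cons (a : ℕ) (R : List ℕ) (B : ℕ → List ℕ) :
    Bw (a :: R) B = B a ++ (3 * a + 2) :: Bw R B := by
  unfold Bw
  rw [List.flatMap_cons, List.append_assoc]
  rfl

theorem bw_append (R S : List ℕ) (B : ℕ → List ℕ) : Bw (R ++ S) B = Bw R B ++ Bw S B := by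
  unfold Bw
  rw [List.flatMap_append]

theorem mem_bw {R : List ℕ} {B : ℕ → List ℕ} {i : ℕ} (h : i ∈ Bw R B) :
    ∃ r ∈ R, i ∈ B r ∨ i = 3 * r + 2 := by
  unfold Bw at h
  rw [List.mem_flatMap] at h
  obtain ⟨r, hr, hi⟩ := h
  rw [List.mem_append, List.mem_singleton] at hi
  exact ⟨r, hr, hi⟩

/-- the projection to `c` and three separators -/
def sg (c a q m i : ℕ) : List ℕ :=
  if i = c then [0] else if i = 3 * a + 2 then [2] else if i = 3 * q + 2 then [5]
    else if i = 3 * m + 2 then [8] else []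

theorem sg_c (c a q m : ℕ) : sg c a q m c = [0] := by
  unfold sg
  rw [if_pos rfl]

theorem sg_a {c : ℕ} (hc : c % 3 ≠ 2) (a q m : ℕ) : sg c a q m (3 * a + 2) = [2] := by
  unfold sg
  rw [if_neg (by omega), if_pos rfl]

theorem sg_q {c : ℕ} (hc : c % 3 ≠ 2) {a q : ℕ} (haq : q ≠ a) (m : ℕ) :
    sg c a q m (3 * q + 2) = [5] := by
  unfold sg
  rw [if_neg (by omega), if_neg (by omega), if_pos rfl]

theorem sg_m {c : ℕ} (hc : c % 3 ≠ 2) {a q m : ℕ} (ham : m ≠ a) (hqm : m ≠ q) :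
    sg c a q m (3 * m + 2) = [8] := by
  unfold sg
  rw [if_neg (by omega), if_neg (by omega), if_neg (by omega), if_pos rfl]

theorem fm_rep (c a q m : ℕ) : ∀ l : List ℕ, (∀ i ∈ l, i ≠ c → sg c a q m i = []) →
    l.flatMap (sg c a q m) = List.replicate (l.count c) 0 := by
  intro l
  induction l with
  | nil =>
    intro _
    rfl
  | cons b l ih =>
    intro h
    rw [List.flatMap_cons, ih (fun i hi => h i (List.mem_cons_of_mem b hi))]
    by_cases hb : b = c
    · rw [hb, sg_c, List.count_cons_self, List.replicate_succ]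
      rfl
    · rw [h b List.mem_cons_self hb, List.count_cons_of_ne hb]
      rfl

theorem fm_sfr (c a q m : ℕ) {l : List ℕ} (hl : SFr l) :
    l.flatMap (sg c a q m) = List.replicate (l.count c) 0 := by
  apply fm_rep
  intro i hi hic
  have h := hl i hi
  unfold sg
  rw [if_neg hic, if_neg (by omega), if_neg (by omega), if_neg (by omega)]

theorem fm_bw (c a q m : ℕ) {R : List ℕ} {B : ℕ → List ℕ} (hB : ∀ r ∈ R, SFr (B r))
    (ha : a ∉ R) (hq : q ∉ R) (hm : m ∉ R) :
    (Bw R B).flatMap (sg c a q m) = List.replicate ((Bw R B).count c) 0 := by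
  apply fm_rep
  intro i hi hic
  obtain ⟨r, hr, h | h⟩ := mem_bw hi
  · have h2 := hB r hr i h
    unfold sg
    rw [if_neg hic, if_neg (by omega), if_neg (by omega), if_neg (by omega)]
  · have h1 : r ≠ a := fun e => ha (e ▸ hr)
    have h2 : r ≠ q := fun e => hq (e ▸ hr)
    have h3 : r ≠ m := fun e => hm (e ▸ hr)
    unfold sg
    rw [if_neg hic, if_neg (by omega), if_neg (by omega), if_neg (by omega)]

theorem proj {c : ℕ} (hc : c % 3 ≠ 2) (R1 X Y R4 : List ℕ) (a q m : ℕ)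
    (hnd : (R1 ++ a :: (X ++ q :: (Y ++ m :: R4))).Nodup) (B : ℕ → List ℕ) (e : List ℕ)
    (hB : ∀ r ∈ R1 ++ a :: (X ++ q :: (Y ++ m :: R4)), SFr (B r)) (he : SFr e) :
    (Bw (R1 ++ a :: (X ++ q :: (Y ++ m :: R4))) B ++ e).flatMap (sg c a q m) =
      List.replicate ((Bw R1 B).count c + (B a).count c) 0 ++
        2 :: (List.replicate ((Bw X B).count c + (B q).count c) 0 ++
          5 :: (List.replicate ((Bw Y B).count c + (B m).count c) 0 ++
            8 :: List.replicate ((Bw R4 B).count c + e.count c) 0)) := by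
  have hnd' := hnd
  simp only [List.nodup_append, List.nodup_cons, List.mem_append, List.mem_cons, not_or] at hnd'
  obtain ⟨-, ⟨⟨haX, haq, haY, ham, haR4⟩, -, ⟨⟨hqY, hqm, hqR4⟩, -, ⟨hmR4, -⟩, hY⟩, hX⟩, hR1⟩ := hnd'
  have a1 : a ∉ R1 := fun h => hR1 a h a (Or.inl rfl) rfl
  have q1 : q ∉ R1 := fun h => hR1 q h q (Or.inr (Or.inr (Or.inl rfl))) rfl
  have m1 : m ∉ R1 := fun h => hR1 m h m (Or.inr (Or.inr (Or.inr (Or.inr (Or.inl rfl))))) rfl
  have qX : q ∉ X := fun h => hX q h q (Or.inl rfl) rfl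
  have mX : m ∉ X := fun h => hX m h m (Or.inr (Or.inr (Or.inl rfl))) rfl
  have mY : m ∉ Y := fun h => hY m h m (Or.inl rfl) rfl
  have b1 : ∀ r ∈ R1, SFr (B r) := fun r hr => hB r (by simp [hr])
  have b2 : ∀ r ∈ X, SFr (B r) := fun r hr => hB r (by simp [hr])
  have b3 : ∀ r ∈ Y, SFr (B r) := fun r hr => hB r (by simp [hr])
  have b4 : ∀ r ∈ R4, SFr (B r) := fun r hr => hB r (by simp [hr])
  have ba : SFr (B a) := hB a (by simp)
  have bq : SFr (B q) := hB q (by simp)
  have bm : SFr (B m) := hB m (by simp)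
  rw [bw_append, bw_cons, bw_append, bw_cons, bw_append, bw_cons]
  simp only [List.flatMap_append, List.flatMap_cons]
  rw [fm_bw c a q m b1 a1 q1 m1, fm_bw c a q m b2 haX qX mX, fm_bw c a q m b3 haY hqY mY,
    fm_bw c a q m b4 haR4 hqR4 hmR4, fm_sfr c a q m ba, fm_sfr c a q m bq, fm_sfr c a q m bm,
    fm_sfr c a q m he, sg_a hc, sg_q hc (Ne.symm haq), sg_m hc (Ne.symm ham) (Ne.symm hqm)]
  simp only [← List.replicate_append_replicate, List.append_assoc, List.cons_append,
    List.nil_append]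

theorem count_bw_zero {c : ℕ} (hc : c % 3 ≠ 2) (B : ℕ → List ℕ) : ∀ (R : List ℕ),
    (∀ r ∈ R, (B r).count c = 0) → (Bw R B).count c = 0 := by
  intro R
  induction R with
  | nil =>
    intro _
    rfl
  | cons a R ih =>
    intro h
    rw [bw_cons, List.count_append, List.count_cons_of_ne (by omega),
      h a List.mem_cons_self, ih (fun r hr => h r (List.mem_cons_of_mem a hr))]

theorem count_le_bw (c : ℕ) (B : ℕ → List ℕ) {R : List ℕ} {q : ℕ} (hq : q ∈ R) :
    (B q).count c ≤ (Bw R B).count c := by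
  obtain ⟨X, Y, rfl⟩ := List.append_of_mem hq
  rw [bw_append, bw_cons, List.count_append, List.count_append]
  omega

theorem key {β : FIC} (hV : VX β) {c : ℕ} (hc : c % 3 ≠ 2) (R1 X Y R4 : List ℕ) (a q m : ℕ)
    (hnd : (R1 ++ a :: (X ++ q :: (Y ++ m :: R4))).Nodup) (B B' : ℕ → List ℕ) (e : List ℕ)
    (hB : ∀ r ∈ R1 ++ a :: (X ++ q :: (Y ++ m :: R4)), SFr (B r))
    (hB' : ∀ r ∈ R1 ++ a :: (X ++ q :: (Y ++ m :: R4)), SFr (B' r)) (he : SFr e)
    (h1 : (Bw R1 B).count c + (B a).count c = 1) (h2 : (Bw X B).count c + (B q).count c = 1)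
    (h3 : (Bw Y B).count c + (B m).count c = 1) (h4 : (Bw R4 B).count c = 0)
    (hrr : RR β (Bw (R1 ++ a :: (X ++ q :: (Y ++ m :: R4))) B)
      (Bw (R1 ++ a :: (X ++ q :: (Y ++ m :: R4))) B' ++ e)) :
    (Bw Y B').count c + (B' m).count c = 1 ∧ (Bw R4 B').count c + e.count c = 0 := by
  have h := hrr.sub (sg c a q m)
  have e1 := proj hc R1 X Y R4 a q m hnd B [] hB (by intro i hi; simp at hi)
  rw [List.append_nil, h1, h2, h3, h4] at e1
  rw [e1, proj hc R1 X Y R4 a q m hnd B' e hB' he] at h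
  exact hV _ _ _ _ h

theorem xvb : XvbStmt := by
  intro β hV R1 R2 R3 R4 r1 r2 m B B' e c hnd hB hB' he hc hcnt hrr
  have hnd' := hnd
  simp only [List.nodup_append, List.nodup_cons, List.mem_append, List.mem_cons, not_or] at hnd'
  obtain ⟨-, ⟨⟨haX, haq, haY, ham, haR4⟩, -, ⟨⟨hqY, hqm, hqR4⟩, -, ⟨hmR4, -⟩, hY⟩, hX⟩, hR1⟩ := hnd'
  have a1 : r1 ∉ R1 := fun h => hR1 r1 h r1 (Or.inl rfl) rfl
  have q1 : r2 ∉ R1 := fun h => hR1 r2 h r2 (Or.inr (Or.inr (Or.inl rfl))) rfl
  have m1 : m ∉ R1 := fun h => hR1 m h m (Or.inr (Or.inr (Or.inr (Or.inr (Or.inl rfl))))) rfl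
  have qX : r2 ∉ R2 := fun h => hX r2 h r2 (Or.inl rfl) rfl
  have mX : m ∉ R2 := fun h => hX m h m (Or.inr (Or.inr (Or.inl rfl))) rfl
  have mY : m ∉ R3 := fun h => hY m h m (Or.inl rfl) rfl
  have c1 : (Bw R1 B).count c = 0 := by
    apply count_bw_zero hc
    intro r hr
    rw [hcnt r (by simp [hr]), if_neg]
    rintro (h | h | h)
    · exact a1 (h ▸ hr)
    · exact q1 (h ▸ hr)
    · exact m1 (h ▸ hr)
  have c2 : (Bw R2 B).count c = 0 := by
    apply count_bw_zero hc
    intro r hr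
    rw [hcnt r (by simp [hr]), if_neg]
    rintro (h | h | h)
    · exact haX (h ▸ hr)
    · exact qX (h ▸ hr)
    · exact mX (h ▸ hr)
  have c3z : ∀ r ∈ R3, (B r).count c = 0 := by
    intro r hr
    rw [hcnt r (by simp [hr]), if_neg]
    rintro (h | h | h)
    · exact haY (h ▸ hr)
    · exact hqY (h ▸ hr)
    · exact mY (h ▸ hr)
  have c3 : (Bw R3 B).count c = 0 := count_bw_zero hc B R3 c3z
  have c4 : (Bw R4 B).count c = 0 := by
    apply count_bw_zero hc
    intro r hr
    rw [hcnt r (by simp [hr]), if_neg]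
    rintro (h | h | h)
    · exact haR4 (h ▸ hr)
    · exact hqR4 (h ▸ hr)
    · exact hmR4 (h ▸ hr)
  have d1 : (B r1).count c = 1 := by rw [hcnt r1 (by simp), if_pos (Or.inl rfl)]
  have d2 : (B r2).count c = 1 := by rw [hcnt r2 (by simp), if_pos (Or.inr (Or.inl rfl))]
  have d3 : (B m).count c = 1 := by rw [hcnt m (by simp), if_pos (Or.inr (Or.inr rfl))]
  obtain ⟨k1, k2⟩ := key hV hc R1 R2 R3 R4 r1 r2 m hnd B B' e hB hB' he (by omega) (by omega)
    (by omega) c4 hrr
  have hm1 : (B' m).count c = 1 := by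
    rcases List.eq_nil_or_concat R3 with h0 | ⟨Z, q, h0⟩
    · rw [h0, bw_nil, List.count_nil, zero_add] at k1
      exact k1
    · rw [List.concat_eq_append] at h0
      have e0 : R1 ++ r1 :: (R2 ++ r2 :: (R3 ++ m :: R4)) =
          R1 ++ r1 :: ((R2 ++ r2 :: Z) ++ q :: ([] ++ m :: R4)) := by
        rw [h0]
        simp only [List.append_assoc, List.cons_append, List.nil_append]
      rw [e0] at hnd hB hB' hrr
      have cz : (Bw Z B).count c = 0 := by
        apply count_bw_zero hc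
        intro r hr
        apply c3z r
        rw [h0]
        simp [hr]
      have cq : (B q).count c = 0 := by
        apply c3z q
        rw [h0]
        simp
      have cx : (Bw (R2 ++ r2 :: Z) B).count c + (B q).count c = 1 := by
        rw [bw_append, bw_cons, List.count_append, List.count_append,
          List.count_cons_of_ne (by omega), c2, d2, cz, cq]
      have k3 := (key hV hc R1 (R2 ++ r2 :: Z) [] R4 r1 q m hnd B B' e hB hB' he (by omega) cx
        (by rw [bw_nil, List.count_nil, d3]) c4 hrr).1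
      rw [bw_nil, List.count_nil, zero_add] at k3
      exact k3
  refine ⟨hm1, ?_, by omega⟩
  intro q hq
  rcases List.mem_append.1 hq with h | h
  · have := count_le_bw c B' h
    omega
  · have := count_le_bw c B' h
    omega

end Pool.Agent.MVD.H95
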